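import Pool.Agent.helper58.FI.SpecC

set_option autoImplicit false

namespace Pool.Agent.FI

open Pool.Agent.helper58.DC Pool.Agent.DI Pool.Agent.GR Pool.Agent.OB Pool.Agent.DR

/-- `∑_x h x ψ(g x) = ψ(g) cc ψ h` for a class function `h` of `C` -/
theorem EVD_sum (hB2 : B2_stmt) (hSCH : SCH_stmt) (G : Type) [Group G] [Finite G] (C : Subgroup G) (h : G → ℂ)
    (hh : CF C h) (ψ : G → ℂ) (hψ : ψ ∈ IrrOn C) (g : G) (hg : g ∈ C) :
    ∑ᶠ x, h x * ψ (g * x) = ψ g * cc ψ h := by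
  classical
  have := Fintype.ofFinite G
  obtain ⟨⟨n, hn, h1, -⟩, -⟩ := (hB2 G C).2 ψ hψ
  have hψ1 : ψ 1 ≠ 0 := by
    rw [h1]
    exact_mod_cast hn.ne'
  have hC : (Nat.card C : ℂ) ≠ 0 := by
    exact_mod_cast Nat.card_pos.ne'
  have key : ∀ t ∈ C, ∑ᶠ x, h x * ψ (g * (t * x * t⁻¹)) = ∑ᶠ x, h x * ψ (g * x) := by
    intro t ht
    rw [← finsum_comp_equiv (MulAut.conj t).toEquiv (f := fun x => h x * ψ (g * x))]
    refine finsum_congr fun x => ?_
    have e : (MulAut.conj t).toEquiv x = t * x * t⁻¹ := rfl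
    rw [e, hh.1 t ht]
  have e1 : (Nat.card C : ℂ) * ∑ᶠ x, h x * ψ (g * x) = ∑ t : C, ∑ x, h x * ψ (g * ((t : G) * x * (t : G)⁻¹)) := by
    have : ∀ t : C, ∑ x, h x * ψ (g * ((t : G) * x * (t : G)⁻¹)) = ∑ᶠ x, h x * ψ (g * x) := by
      intro t
      rw [← key t t.2, finsum_eq_sum_of_fintype]
    rw [Finset.sum_congr rfl fun t _ => this t, Finset.sum_const, Finset.card_univ, nsmul_eq_mul, Nat.card_eq_fintype_card]
  have e2 : ψ 1 * ∑ t : C, ∑ x, h x * ψ (g * ((t : G) * x * (t : G)⁻¹)) =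
      ∑ x, h x * ((Nat.card C : ℂ) * ψ g * ψ x) := by
    rw [Finset.sum_comm, Finset.mul_sum]
    refine Finset.sum_congr rfl fun x _ => ?_
    rw [← hSCH G C ψ hψ g hg x, ← Finset.mul_sum]
    have e3 : ∑ᶠ t ∈ (C : Set G), ψ (g * (t * x * t⁻¹)) = ∑ t : C, ψ (g * ((t : G) * x * (t : G)⁻¹)) := by
      rw [← finsum_set_coe_eq_finsum_mem, finsum_eq_sum_of_fintype]
      rfl
    rw [e3]
    ring
  have e4 : ψ 1 * ((Nat.card C : ℂ) * ∑ᶠ x, h x * ψ (g * x)) = (Nat.card C : ℂ) * (ψ g * (ψ 1 * cc ψ h)) := by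
    rw [e1, e2]
    have e5 : ψ 1 * cc ψ h = ∑ x, h x * ψ x := by
      unfold cc
      rw [finsum_eq_sum_of_fintype]
      field_simp
    rw [e5, Finset.mul_sum, Finset.mul_sum]
    exact Finset.sum_congr rfl fun x _ => by ring
  have e6 : (ψ 1 * (Nat.card C : ℂ)) * (∑ᶠ x, h x * ψ (g * x)) = (ψ 1 * (Nat.card C : ℂ)) * (ψ g * cc ψ h) := by
    linear_combination e4
  exact mul_left_cancel₀ (mul_ne_zero hψ1 hC) e6

theorem EVD (hB2 : B2_stmt) (hCRE : CRE_stmt) (hIDM : IDM_stmt) (hSCH : SCH_stmt) : EVD_stmt := by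
  classical
  intro p M _ G _ _ D L θ u hu hG χ' hχ ψ₀ hψ₀ v hv hreg
  have := Fintype.ofFinite G
  set C := Cz L u with hCdef
  set b := Bl M C θ with hbdef
  have hCL : C ≤ L := inf_le_left
  have hcu : ∀ t ∈ C, t * u = u * t := by
    intro t ht
    have := (Subgroup.mem_inf.1 ht).2
    exact (Subgroup.mem_centralizer_iff.1 this u rfl).symm
  have huC : u ∈ C := by
    refine Subgroup.mem_inf.2 ⟨hu, Subgroup.mem_centralizer_iff.2 ?_⟩
    rintro w rfl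
    rfl
  have hguC : u * v ∈ C := C.mul_mem huC hv
  have hsub : b ⊆ IrrOn C := fun ψ h => h.1
  have hfin : (IrrOn C).Finite := (hB2 G C).1
  obtain ⟨m, hm1, -, hm3⟩ := hCRE G L C hCL
  have hmt : ∀ ψ ∈ IrrOn C, mt C χ' ψ = m χ' ψ := by
    intro ψ hψ
    unfold mt
    rw [hm3 χ' hχ ψ hψ]
    have hC : (Nat.card C : ℂ) ≠ 0 := by exact_mod_cast Nat.card_pos.ne'
    field_simp
  have hres : ∀ x ∈ C, χ' x = ∑ ψ ∈ hfin.toFinset, mt C χ' ψ * ψ x := by
    intro x hx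
    rw [hm1 χ' hχ x hx, finsum_mem_eq_finite_toFinset_sum _ hfin]
    refine Finset.sum_congr rfl fun ψ hψ => ?_
    rw [hmt ψ (hfin.mem_toFinset.1 hψ)]
  obtain ⟨hcf, hcc, -, -⟩ := hIDM G C b hsub
  have hev : ev χ' (eS C b) (u * v) = ∑ ψ ∈ hfin.toFinset, mt C χ' ψ * (if ψ ∈ b then ψ (u * v) else 0) := by
    unfold ev
    rw [finsum_eq_sum_of_fintype]
    have h1 : ∀ x : G, eS C b x * χ' (u * v * x) = ∑ ψ ∈ hfin.toFinset, mt C χ' ψ * (eS C b x * ψ (u * v * x)) := by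
      intro x
      by_cases hx : x ∈ C
      · rw [hres _ (C.mul_mem hguC hx), Finset.mul_sum]
        exact Finset.sum_congr rfl fun ψ _ => by ring
      · rw [hcf.2 x hx]
        simp
    rw [Finset.sum_congr rfl fun x _ => h1 x, Finset.sum_comm]
    refine Finset.sum_congr rfl fun ψ hψ => ?_
    have hψ' := hfin.mem_toFinset.1 hψ
    rw [← Finset.mul_sum, ← finsum_eq_sum_of_fintype, EVD_sum hB2 hSCH G C _ hcf ψ hψ' _ hguC, hcc ψ hψ']
    split_ifs <;> simp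
  have hdd : dd M C θ χ' u * ψ₀ v = ∑ ψ ∈ hfin.toFinset, mt C χ' ψ * (if ψ ∈ b then ψ u / ψ 1 * ψ₀ v else 0) := by
    unfold dd
    rw [← hbdef, finsum_mem_eq_finite_toFinset_sum _ (hfin.subset hsub)]
    have e : (hfin.subset hsub).toFinset = hfin.toFinset.filter (fun ψ => ψ ∈ b) := by
      ext ψ
      simp only [Set.Finite.mem_toFinset, Finset.mem_filter]
      exact ⟨fun h => ⟨hsub h, h⟩, fun h => h.2⟩
    rw [e, Finset.sum_filter, Finset.sum_mul]
    refine Finset.sum_congr rfl fun ψ _ => ?_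
    split_ifs
    · ring
    · simp
  rw [hev, hdd]
  refine Finset.sum_congr rfl fun ψ hψ => ?_
  by_cases hb : ψ ∈ b
  · rw [if_pos hb, if_pos hb]
    have hψ' := hfin.mem_toFinset.1 hψ
    obtain ⟨⟨n, hn, h1, -⟩, hcl, -⟩ := (hB2 G C).2 ψ hψ'
    have hψ1 : ψ 1 ≠ 0 := by
      rw [h1]
      exact_mod_cast hn.ne'
    have hC : (Nat.card C : ℂ) ≠ 0 := by exact_mod_cast Nat.card_pos.ne'
    have h2 := hSCH G C ψ hψ' u huC v
    have h3 : ∑ᶠ t ∈ (C : Set G), ψ (u * (t * v * t⁻¹)) = (Nat.card C : ℂ) * ψ (u * v) := by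
      have h4 : ∀ t ∈ (C : Set G), ψ (u * (t * v * t⁻¹)) = ψ (u * v) := by
        intro t ht
        have h5 : u * (t * v * t⁻¹) = t * (u * v) * t⁻¹ := by
          calc u * (t * v * t⁻¹) = (u * t) * v * t⁻¹ := by group
            _ = (t * u) * v * t⁻¹ := by rw [hcu t ht]
            _ = t * (u * v) * t⁻¹ := by group
        rw [h5, hcl _ t ht]
      rw [finsum_mem_congr rfl h4, ← finsum_set_coe_eq_finsum_mem, finsum_eq_sum_of_fintype, Finset.sum_const,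
        Finset.card_univ, nsmul_eq_mul]
      have h6 : Fintype.card (C : Set G) = Nat.card C := (Nat.card_eq_fintype_card (α := C)).symm
      rw [h6]
    rw [h3] at h2
    have h7 : ψ (u * v) * ψ 1 = ψ u * ψ v := by
      have h8 : (Nat.card C : ℂ) * (ψ (u * v) * ψ 1) = (Nat.card C : ℂ) * (ψ u * ψ v) := by linear_combination h2
      exact mul_left_cancel₀ hC h8
    have h9 : ψ v = ψ₀ v := hG.reg ψ hb ψ₀ hψ₀ v hv hreg
    rw [← h9]
    congr 1
    field_simp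
    linear_combination h7
  · rw [if_neg hb, if_neg hb]

end Pool.Agent.FI
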